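import Pool.Agent.J4H58.XC.Stm3

/-!
Project XC of helper58, piece X10: from the grids to the cube (Riemann sums).
-/

set_option autoImplicit false
set_option maxHeartbeats 400000

open MeasureTheory Set Filter Topology Pointwise
open Pool.Agent.J4H58.XC

namespace Pool.Agent.J4H28.XC

variable {n : ℕ}

theorem nd_inj {N : ℕ} (hN : 0 < N) : Function.Injective (nd (n := n) N) := by
  intro x y h
  have hN' : (N : ℝ) ≠ 0 := by exact_mod_cast hN.ne'
  funext i
  have := congrFun h i
  simp only [nd] at this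
  have h2 : (x i : ℝ) = y i := by
    field_simp at this
    exact this
  exact_mod_cast h2

theorem nd_mem {N : ℕ} {x : Fin n → ℕ} (hx : x ∈ box n N) :
    nd N x ∈ Icc (0 : Fin n → ℝ) 1 := by
  rw [box, Fintype.mem_piFinset] at hx
  constructor
  · intro i
    simp only [nd, Pi.zero_apply]
    positivity
  · intro i
    have := hx i
    rw [Finset.mem_range] at this
    simp only [nd, Pi.one_apply]
    apply div_le_one_of_le₀ _ (Nat.cast_nonneg _)
    exact_mod_cast Nat.lt_succ_iff.1 this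

open Classical in
/-- the lattice points of a subset of the cube -/
theorem lat_eq {N : ℕ} (hN : 0 < N) (D : Set (Fin n → ℝ)) (hD : D ⊆ Icc 0 1) :
    D ∩ (N : ℝ)⁻¹ • Submodule.span ℤ (Set.range (Pi.basisFun ℝ (Fin n))) =
      (((box n N).filter (fun x => nd N x ∈ D)).image (nd N) : Finset (Fin n → ℝ)) := by
  haveI : NeZero N := ⟨hN.ne'⟩
  have hN' : (0 : ℝ) < N := by exact_mod_cast hN
  ext v
  rw [Set.mem_inter_iff]
  rw [Finset.mem_coe, Finset.mem_image]
  have key := BoxIntegral.unitPartition.mem_smul_span_iff (n := N) (v := v)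
  refine (and_congr_right fun _ => key).trans ?_
  constructor
  · rintro ⟨hv, hk⟩
    choose k hk using hk
    have hk' : ∀ i, (k i : ℝ) = N * v i := fun i => by rw [← hk i]; rfl
    have h0 : ∀ i, 0 ≤ k i := by
      intro i
      have : (0 : ℝ) ≤ k i := by rw [hk' i]; exact mul_nonneg hN'.le ((hD hv).1 i)
      exact_mod_cast this
    have h1 : ∀ i, k i ≤ N := by
      intro i
      have : (k i : ℝ) ≤ N := by
        rw [hk' i]
        have := (hD hv).2 i
        simp only [Pi.one_apply] at this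
        nlinarith
      exact_mod_cast this
    have hnd : nd N (fun i => (k i).toNat) = v := by
      funext i
      simp only [nd]
      have h3 : (((k i).toNat : ℕ) : ℝ) = k i := by
        have := Int.toNat_of_nonneg (h0 i)
        exact_mod_cast this
      rw [h3, hk' i]
      field_simp
    refine ⟨fun i => (k i).toNat, ?_, hnd⟩
    rw [Finset.mem_filter, hnd]
    refine ⟨?_, hv⟩
    rw [box, Fintype.mem_piFinset]
    intro i
    rw [Finset.mem_range]
    have := h1 i
    have := h0 i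
    omega
  · rintro ⟨x, hx, rfl⟩
    rw [Finset.mem_filter] at hx
    refine ⟨hx.2, fun i => ⟨(x i : ℤ), ?_⟩⟩
    simp only [nd]
    rw [mul_div_cancel₀ _ hN'.ne']
    simp

open Classical in
/-- Riemann sums over the grid points in `D` -/
theorem riemann (D : Set (Fin n → ℝ)) (hD : D ⊆ Icc 0 1) (hm : MeasurableSet D)
    (hfr : volume (frontier D) = 0) (F : (Fin n → ℝ) → ℝ) (hF : Continuous F) :
    Tendsto (fun N : ℕ => (∑ x ∈ box n N, if nd N x ∈ D then F (nd N x) else 0) / (N : ℝ) ^ n)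
      atTop (𝓝 (∫ x in D, F x)) := by
  have hb : Bornology.IsBounded D := (isCompact_Icc.isBounded).subset hD
  have h := tendsto_tsum_div_pow_atTop_integral D F hF hb hm hfr
  refine h.congr' ?_
  filter_upwards [eventually_gt_atTop 0] with N hN
  rw [Fintype.card_fin]
  congr 1
  have e1 := lat_eq hN D hD
  have e2 : (∑' x : ↑(D ∩ (N : ℝ)⁻¹ • Submodule.span ℤ (Set.range (Pi.basisFun ℝ (Fin n)))),
        F x) =
      ∑' x : ↑((((box n N).filter (fun x => nd N x ∈ D)).image (nd N) :
        Finset (Fin n → ℝ)) : Set (Fin n → ℝ)), F x := by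
    rw [e1]
  refine e2.trans ?_
  rw [Finset.tsum_subtype' ((((box n N).filter (fun x => nd N x ∈ D)).image (nd N))) F,
    Finset.sum_image (fun x _ y _ hxy => nd_inj hN hxy), Finset.sum_filter]

/-- the cone is closed and convex -/
theorem ordc_closed (R : Fin n → Fin n → Prop) : IsClosed (ordc R) := by
  have : ordc R = ⋂ i, ⋂ j, ⋂ (_ : R i j), {x : Fin n → ℝ | x i ≤ x j} := by
    ext x; simp [ordc]
  rw [this]
  exact isClosed_iInter fun i => isClosed_iInter fun j => isClosed_iInter fun _ =>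
    isClosed_le (continuous_apply i) (continuous_apply j)

theorem ordc_convex (R : Fin n → Fin n → Prop) : Convex ℝ (ordc R) := by
  intro x hx y hy a b ha hb _ i j hij
  simp only [Pi.add_apply, Pi.smul_apply, smul_eq_mul]
  have h1 := hx i j hij
  have h2 := hy i j hij
  nlinarith

/-- the exceptional points -/
def exc (n : ℕ) : Set (Fin n → ℝ) :=
  Icc 0 1 ∩ ((⋃ i, ⋃ j, ⋃ (_ : i ≠ j), {x : Fin n → ℝ | x i = x j}) ∪ ⋃ i, {x | x i = 1})

theorem exc_closed : IsClosed (exc n) := by
  unfold exc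
  refine isClosed_Icc.inter (IsClosed.union ?_ ?_)
  · exact isClosed_iUnion_of_finite fun i => isClosed_iUnion_of_finite fun j =>
      isClosed_iUnion_of_finite fun _ => isClosed_eq (continuous_apply i) (continuous_apply j)
  · exact isClosed_iUnion_of_finite fun i => isClosed_eq (continuous_apply i) continuous_const

theorem exc_null : volume (exc n) = 0 := by
  unfold exc
  refine measure_mono_null Set.inter_subset_right ?_
  rw [measure_union_null_iff]
  constructor
  · rw [measure_iUnion_null_iff]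
    intro i
    rw [measure_iUnion_null_iff]
    intro j
    rw [measure_iUnion_null_iff]
    intro hij
    set φ : (Fin n → ℝ) →ₗ[ℝ] ℝ :=
      (LinearMap.proj i : (Fin n → ℝ) →ₗ[ℝ] ℝ) - (LinearMap.proj j : (Fin n → ℝ) →ₗ[ℝ] ℝ) with hφ
    have hne : LinearMap.ker φ ≠ ⊤ := by
      intro h
      have : (Pi.single i 1 : Fin n → ℝ) ∈ LinearMap.ker φ := by rw [h]; trivial
      rw [LinearMap.mem_ker] at this
      simp [hφ, Pi.single_eq_of_ne hij.symm] at this
    have := Measure.addHaar_submodule (volume : Measure (Fin n → ℝ)) (LinearMap.ker φ) hne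
    refine measure_mono_null ?_ this
    intro x hx
    simp only [Set.mem_setOf_eq] at hx
    simp [hφ, hx]
  · rw [measure_iUnion_null_iff]
    intro i
    exact Measure.pi_hyperplane (fun _ : Fin n => (volume : Measure ℝ)) i (1 : ℝ)

open Classical in
/-- the exceptional points of the grid are few -/
theorem exc_few : Tendsto (fun N : ℕ =>
    (∑ x ∈ box n N, if nd N x ∈ exc n then (1 : ℝ) else 0) / (N : ℝ) ^ n) atTop (𝓝 0) := by
  have h := riemann (exc n) Set.inter_subset_left exc_closed.measurableSet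
    (measure_mono_null exc_closed.frontier_subset exc_null) (fun _ => (1 : ℝ)) continuous_const
  have h0 : ∫ _x in exc n, (1 : ℝ) = 0 := by
    rw [Measure.restrict_eq_zero.2 exc_null, integral_zero_measure]
  rwa [h0] at h

theorem not_exc {N : ℕ} (hN : 0 < N) {x : Fin n → ℕ} (hx : x ∈ box n N)
    (h : nd N x ∉ exc n) : Function.Injective x ∧ ∀ i, x i < N := by
  have hN' : (N : ℝ) ≠ 0 := by exact_mod_cast hN.ne'
  have h1 := nd_mem hx
  unfold exc at h
  rw [Set.mem_inter_iff, not_and] at h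
  have h2 := h h1
  rw [Set.mem_union, not_or] at h2
  constructor
  · intro i j hij
    by_contra hne
    apply h2.1
    simp only [Set.mem_iUnion, Set.mem_setOf_eq, exists_prop]
    exact ⟨i, j, hne, by simp [nd, hij]⟩
  · intro i
    rw [box, Fintype.mem_piFinset] at hx
    have h3 := hx i
    rw [Finset.mem_range] at h3
    by_contra hlt
    have h4 : x i = N := by omega
    apply h2.2
    simp only [Set.mem_iUnion, Set.mem_setOf_eq]
    exact ⟨i, by simp [nd, h4, hN']⟩

/-- membership of grid points in the cone -/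
theorem nd_ordc {N : ℕ} (hN : 0 < N) (R : Fin n → Fin n → Prop) (x : Fin n → ℕ) :
    nd N x ∈ ordc R ↔ ∀ i j, R i j → x i ≤ x j := by
  have hN' : (0 : ℝ) < N := by exact_mod_cast hN
  simp only [ordc, Set.mem_setOf_eq, nd]
  constructor
  · intro h i j hij
    have := h i j hij
    rw [div_le_div_iff_of_pos_right hN'] at this
    exact_mod_cast this
  · intro h i j hij
    rw [div_le_div_iff_of_pos_right hN']
    exact_mod_cast h i j hij

open Classical in
/-- the sums with the weights `rw` -/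
theorem left_lim (R : Fin n → Fin n → Prop) (hR : ∀ a, ¬ R a a) (ρ : (Fin n → ℝ) → ℝ)
    (hρ : Continuous ρ) (g : (Fin n → ℝ) → ℝ) (hg : Continuous g) :
    Tendsto (fun N : ℕ => (∑ x ∈ box n N,
      if ∀ i j, R i j → x i < x j then rw ρ N x * g (nd N x) else 0) / (N : ℝ) ^ n) atTop
      (𝓝 (∫ x in Icc 0 1 ∩ ordc R, ρ x * g x)) := by
  have hD : (Icc 0 1 ∩ ordc R : Set (Fin n → ℝ)) ⊆ Icc 0 1 := Set.inter_subset_left
  have hcl : IsClosed (Icc 0 1 ∩ ordc R : Set (Fin n → ℝ)) := isClosed_Icc.inter (ordc_closed R)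
  have hcv : Convex ℝ (Icc 0 1 ∩ ordc R : Set (Fin n → ℝ)) :=
    (convex_Icc 0 1).inter (ordc_convex R)
  have h1 := riemann _ hD hcl.measurableSet (hcv.addHaar_frontier volume)
    (fun x => ρ x * g x) (hρ.mul hg)
  obtain ⟨M, hM⟩ := (isCompact_Icc (a := (0 : Fin n → ℝ)) (b := 1)).exists_bound_of_continuousOn
    (hρ.mul hg).continuousOn
  have h2 := (exc_few (n := n)).const_mul M
  rw [mul_zero] at h2
  have h3 : Tendsto (fun N : ℕ => (∑ x ∈ box n N,
      if ∀ i j, R i j → x i < x j then rw ρ N x * g (nd N x) else 0) / (N : ℝ) ^ n -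
      (∑ x ∈ box n N, if nd N x ∈ (Icc 0 1 ∩ ordc R : Set (Fin n → ℝ)) then
        ρ (nd N x) * g (nd N x) else 0) / (N : ℝ) ^ n) atTop (𝓝 0) := by
    refine squeeze_zero_norm' ?_ h2
    filter_upwards [eventually_gt_atTop 0] with N hN
    have hN' : (0 : ℝ) < (N : ℝ) ^ n := by positivity
    rw [← sub_div, Real.norm_eq_abs, abs_div, abs_of_pos hN', ← mul_div_assoc,
      div_le_div_iff_of_pos_right hN', ← Finset.sum_sub_distrib, Finset.mul_sum]
    refine (Finset.abs_sum_le_sum_abs _ _).trans (Finset.sum_le_sum fun x hx => ?_)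
    have hx1 := nd_mem hx
    have hb := hM _ hx1
    rw [Real.norm_eq_abs] at hb
    by_cases he : nd N x ∈ exc n
    · rw [if_pos he, mul_one]
      have hDx : nd N x ∈ (Icc 0 1 ∩ ordc R : Set (Fin n → ℝ)) ↔ ∀ i j, R i j → x i ≤ x j := by
        rw [Set.mem_inter_iff, nd_ordc hN]
        exact ⟨fun h => h.2, fun h => ⟨hx1, h⟩⟩
      by_cases hw : ∀ i j, R i j → x i ≤ x j
      · rw [if_pos (hDx.2 hw)]
        by_cases hs : ∀ i j, R i j → x i < x j
        · rw [if_pos hs]
          unfold rw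
          split_ifs
          · rw [sub_self, abs_zero]; exact (abs_nonneg _).trans hb
          · rw [zero_mul, zero_sub, abs_neg]; exact hb
        · rw [if_neg hs, zero_sub, abs_neg]; exact hb
      · rw [if_neg (fun h => hw (hDx.1 h)), if_neg (fun h => hw fun i j hij => (h i j hij).le),
          sub_self, abs_zero]
        exact (abs_nonneg _).trans hb
    · obtain ⟨hinj, hlt⟩ := not_exc hN hx he
      rw [if_neg he, mul_zero]
      have e1 : (∀ i j, R i j → x i < x j) ↔
          nd N x ∈ (Icc 0 1 ∩ ordc R : Set (Fin n → ℝ)) := by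
        rw [Set.mem_inter_iff, nd_ordc hN]
        constructor
        · exact fun h => ⟨hx1, fun i j hij => (h i j hij).le⟩
        · intro h i j hij
          refine lt_of_le_of_ne (h.2 i j hij) fun h5 => ?_
          have := hinj h5
          rw [this] at hij
          exact hR j hij
      have e2 : rw ρ N x = ρ (nd N x) := by
        unfold rw
        rw [if_pos ⟨hinj, hlt⟩]
      by_cases hs : ∀ i j, R i j → x i < x j
      · rw [if_pos hs, if_pos (e1.1 hs), e2, sub_self, abs_zero]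
      · rw [if_neg hs, if_neg (fun h => hs (e1.2 h)), sub_self, abs_zero]
  have h4 := h3.add h1
  rw [zero_add] at h4
  refine h4.congr fun N => ?_
  ring

theorem pd_cont {f : (Fin n → ℝ) → ℝ} (hf : ContDiff ℝ 1 f) (i : Fin n) :
    Continuous (pd f i) := by
  unfold pd
  exact (hf.continuous_fderiv one_ne_zero).clm_apply continuous_const

theorem gr_cont {f : (Fin n → ℝ) → ℝ} (hf : ContDiff ℝ 1 f) : Continuous (gr f) := by
  unfold gr
  exact continuous_finset_sum _ fun i _ => (pd_cont hf i).pow 2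

/-- the differences are uniformly close to the derivatives -/
theorem diff_close {f : (Fin n → ℝ) → ℝ} (hf : ContDiff ℝ 1 f) {δ : ℝ} (hδ : 0 < δ) :
    ∀ᶠ N : ℕ in atTop, ∀ x ∈ box n N, ∀ i : Fin n,
      (N : ℝ) ^ 2 * (f (nd N (x + Pi.single i 1)) - f (nd N x)) ^ 2 ≤ pd f i (nd N x) ^ 2 + δ := by
  have key : ∀ i : Fin n, ∀ᶠ N : ℕ in atTop, ∀ x ∈ box n N,
      (N : ℝ) ^ 2 * (f (nd N (x + Pi.single i 1)) - f (nd N x)) ^ 2 ≤ pd f i (nd N x) ^ 2 + δ := by
    intro i
    have huc := (isCompact_Icc (a := (0 : Fin n → ℝ)) (b := fun _ => 2)).uniformContinuousOn_of_continuous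
      ((pd_cont hf i).pow 2).continuousOn
    rw [Metric.uniformContinuousOn_iff] at huc
    obtain ⟨η, hη, huc⟩ := huc δ hδ
    have hlim : ∀ᶠ N : ℕ in atTop, (1 : ℝ) / N < η :=
      (tendsto_order.1 tendsto_one_div_atTop_nhds_zero_nat).2 η hη
    filter_upwards [hlim, eventually_gt_atTop 0] with N hNη hN x hx
    have hN' : (0 : ℝ) < N := by exact_mod_cast hN
    set u := nd N x with hu
    have hu1 : u ∈ Icc (0 : Fin n → ℝ) 1 := nd_mem hx
    have hstep : nd N (x + Pi.single i 1) = u + (1 / (N : ℝ)) • (Pi.single i 1 : Fin n → ℝ) := by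
      funext j
      simp only [nd, hu, Pi.add_apply, Pi.smul_apply, smul_eq_mul]
      by_cases hj : j = i
      · subst hj
        simp only [Pi.single_eq_same]
        push_cast
        ring
      · simp only [Pi.single_eq_of_ne hj]
        push_cast
        ring
    rw [hstep]
    -- mean value theorem
    set φ : ℝ → ℝ := fun t => f (u + t • (Pi.single i 1 : Fin n → ℝ)) with hφ
    have hder : ∀ t : ℝ, HasDerivAt φ (pd f i (u + t • (Pi.single i 1 : Fin n → ℝ))) t := by
      intro t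
      have h1 : HasFDerivAt f (fderiv ℝ f (u + t • (Pi.single i 1 : Fin n → ℝ)))
          (u + t • (Pi.single i 1 : Fin n → ℝ)) :=
        (hf.differentiable one_ne_zero _).hasFDerivAt
      have h2 : HasDerivAt (fun t : ℝ => u + t • (Pi.single i 1 : Fin n → ℝ))
          (Pi.single i 1 : Fin n → ℝ) t := by
        have := ((hasDerivAt_id t).smul_const (Pi.single i 1 : Fin n → ℝ)).const_add u
        simpa using this
      exact h1.comp_hasDerivAt t h2
    have hpos : (0 : ℝ) < 1 / N := by positivity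
    obtain ⟨τ, hτ, hτ2⟩ := exists_hasDerivAt_eq_slope φ
      (fun t => pd f i (u + t • (Pi.single i 1 : Fin n → ℝ))) hpos
      (fun t _ => (hder t).continuousAt.continuousWithinAt) (fun t _ => hder t)
    have h0 : φ 0 = f u := by simp [hφ]
    rw [h0, sub_zero] at hτ2
    have h5 : f (u + (1 / (N : ℝ)) • (Pi.single i 1 : Fin n → ℝ)) - f u =
        pd f i (u + τ • (Pi.single i 1 : Fin n → ℝ)) * (1 / N) := by
      rw [hτ2]
      field_simp
      rfl
    rw [h5, mul_pow, one_div_pow, ← mul_assoc, mul_comm ((N : ℝ) ^ 2), mul_assoc,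
      mul_one_div_cancel (pow_ne_zero 2 hN'.ne'), mul_one]
    have hmem1 : u ∈ Icc (0 : Fin n → ℝ) (fun _ => 2) :=
      ⟨hu1.1, fun j => (hu1.2 j).trans (by norm_num)⟩
    have hmem2 : u + τ • (Pi.single i 1 : Fin n → ℝ) ∈ Icc (0 : Fin n → ℝ) (fun _ => 2) := by
      have hτ1 : τ ≤ 1 := by
        refine hτ.2.le.trans ?_
        rw [div_le_one hN']
        exact_mod_cast hN
      constructor
      · intro j
        simp only [Pi.zero_apply, Pi.add_apply, Pi.smul_apply, smul_eq_mul]
        have := hu1.1 j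
        simp only [Pi.zero_apply] at this
        by_cases hj : j = i
        · subst hj; rw [Pi.single_eq_same]; linarith [hτ.1]
        · rw [Pi.single_eq_of_ne hj]; linarith
      · intro j
        simp only [Pi.add_apply, Pi.smul_apply, smul_eq_mul]
        have := hu1.2 j
        simp only [Pi.one_apply] at this
        by_cases hj : j = i
        · subst hj; rw [Pi.single_eq_same]; linarith
        · rw [Pi.single_eq_of_ne hj]; linarith
    have hd : dist (u + τ • (Pi.single i 1 : Fin n → ℝ)) u < η := by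
      rw [dist_eq_norm, add_sub_cancel_left, norm_smul]
      have h6 : ‖(Pi.single i 1 : Fin n → ℝ)‖ = 1 := by
        rw [Pi.norm_single, norm_one]
      rw [h6, mul_one, Real.norm_eq_abs, abs_of_pos hτ.1]
      exact hτ.2.trans hNη
    have := huc _ hmem2 _ hmem1 hd
    rw [Real.dist_eq] at this
    simp only [Pi.pow_apply] at this
    linarith [(abs_lt.1 this).2]
  filter_upwards [eventually_all.2 key] with N h x hx i
  exact h i x hx

open Classical in
/-- the energy -/
theorem right_le (R : Fin n → Fin n → Prop) {ρ : (Fin n → ℝ) → ℝ} (hpos : ∀ x, 0 < ρ x)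
    {f : (Fin n → ℝ) → ℝ} {δ M : ℝ} (hδ : 0 < δ) {N : ℕ} (hN : 0 < N)
    (hM : ∀ x ∈ Icc (0 : Fin n → ℝ) 1, ρ x * (gr f x + n * δ) ≤ M)
    (hd : ∀ x ∈ box n N, ∀ i : Fin n,
      (N : ℝ) ^ 2 * (f (nd N (x + Pi.single i 1)) - f (nd N x)) ^ 2 ≤ pd f i (nd N x) ^ 2 + δ) :
    (∑ x ∈ box n N, (if ∀ i j, R i j → x i ≤ x j then mu x * ∑ i : Fin n,
      (if x i < N then sw ρ N x i * (f (nd N (x + Pi.single i 1)) - f (nd N x)) ^ 2 else 0)
        else 0)) ≤
    (∑ x ∈ box n N, if nd N x ∈ (Icc 0 1 ∩ ordc R : Set (Fin n → ℝ)) then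
        ρ (nd N x) * gr f (nd N x) else 0) +
      n * δ * (∑ x ∈ box n N, if nd N x ∈ (Icc 0 1 ∩ ordc R : Set (Fin n → ℝ)) then
        ρ (nd N x) else 0) +
      (n.factorial * M) * ∑ x ∈ box n N, if nd N x ∈ exc n then (1 : ℝ) else 0 := by
  rw [Finset.mul_sum, Finset.mul_sum, ← Finset.sum_add_distrib, ← Finset.sum_add_distrib]
  refine Finset.sum_le_sum fun x hx => ?_
  have hx1 := nd_mem hx
  have hgr : 0 ≤ gr f (nd N x) := Finset.sum_nonneg fun i _ => sq_nonneg _
  have hnδ : 0 ≤ (n : ℝ) * δ := by positivity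
  have hM0 : 0 ≤ M := le_trans (mul_nonneg (hpos _).le (by linarith)) (hM _ hx1)
  have hfac : (1 : ℝ) ≤ n.factorial := by exact_mod_cast Nat.factorial_pos n
  have hex : (0 : ℝ) ≤ (n.factorial * M) * (if nd N x ∈ exc n then (1 : ℝ) else 0) := by
    split_ifs
    · rw [mul_one]; positivity
    · rw [mul_zero]
  have hDx : nd N x ∈ (Icc 0 1 ∩ ordc R : Set (Fin n → ℝ)) ↔ ∀ i j, R i j → x i ≤ x j := by
    rw [Set.mem_inter_iff, nd_ordc hN]
    exact ⟨fun h => h.2, fun h => ⟨hx1, h⟩⟩
  by_cases hw : ∀ i j, R i j → x i ≤ x j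
  · rw [if_pos hw, if_pos (hDx.2 hw), if_pos (hDx.2 hw)]
    have hsum : ∑ i : Fin n, (if x i < N then sw ρ N x i *
        (f (nd N (x + Pi.single i 1)) - f (nd N x)) ^ 2 else 0) ≤
        ρ (nd N x) * (gr f (nd N x) + n * δ) := by
      have h1 : ρ (nd N x) * (gr f (nd N x) + n * δ) =
          ∑ i : Fin n, ρ (nd N x) * (pd f i (nd N x) ^ 2 + δ) := by
        rw [← Finset.mul_sum, Finset.sum_add_distrib]
        simp [gr]
      rw [h1]
      refine Finset.sum_le_sum fun i _ => ?_
      split_ifs with h2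
      · have h3 : sw ρ N x i * (f (nd N (x + Pi.single i 1)) - f (nd N x)) ^ 2 =
            ρ (nd N x) * ((N : ℝ) ^ 2 * (f (nd N (x + Pi.single i 1)) - f (nd N x)) ^ 2) := by
          unfold sw; ring
        rw [h3]
        exact mul_le_mul_of_nonneg_left (hd x hx i) (hpos _).le
      · exact mul_nonneg (hpos _).le (by positivity)
    by_cases he : nd N x ∈ exc n
    · rw [if_pos he, mul_one]
      have hmu : mu x ≤ n.factorial := by
        unfold mu
        split_ifs
        · exact hfac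
        · exact le_rfl
      have hmu0 : 0 ≤ mu x := by
        unfold mu
        split_ifs
        · exact zero_le_one
        · positivity
      have h4 : mu x * ∑ i : Fin n, (if x i < N then sw ρ N x i *
        (f (nd N (x + Pi.single i 1)) - f (nd N x)) ^ 2 else 0) ≤ n.factorial * M :=
        (mul_le_mul_of_nonneg_left (hsum.trans (hM _ hx1)) hmu0).trans
          (mul_le_mul_of_nonneg_right hmu hM0)
      have h5 : 0 ≤ ρ (nd N x) * gr f (nd N x) := mul_nonneg (hpos _).le hgr
      have h6 : 0 ≤ (n : ℝ) * δ * ρ (nd N x) := mul_nonneg hnδ (hpos _).le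
      linarith
    · obtain ⟨hinj, -⟩ := not_exc hN hx he
      have hmu : mu x = 1 := by unfold mu; rw [if_pos hinj]
      rw [if_neg he, mul_zero, add_zero, hmu, one_mul]
      refine hsum.trans (le_of_eq ?_)
      ring
  · rw [if_neg hw, if_neg (fun h => hw (hDx.1 h)), if_neg (fun h => hw (hDx.1 h)), mul_zero,
      zero_add, zero_add]
    exact hex

/-- the limit of the inequalities -/
theorem seq_lim {a0 a1 a2 e1 e0 e2 : ℕ → ℝ} {P L Q G κ c M : ℝ}
    (h0 : Tendsto a0 atTop (𝓝 P)) (h1 : Tendsto a1 atTop (𝓝 L)) (h2 : Tendsto a2 atTop (𝓝 Q))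
    (g1 : Tendsto e1 atTop (𝓝 G)) (g0 : Tendsto e0 atTop (𝓝 P)) (g2 : Tendsto e2 atTop (𝓝 0))
    (hev : ∀ᶠ N in atTop, a0 N * a2 N - a1 N ^ 2 ≤
      a0 N * (κ * (e1 N + c * e0 N + M * e2 N))) :
    P * Q - L ^ 2 ≤ P * (κ * (G + c * P)) := by
  have hl : Tendsto (fun N => a0 N * a2 N - a1 N ^ 2) atTop (𝓝 (P * Q - L ^ 2)) :=
    (h0.mul h2).sub (h1.pow 2)
  have hr : Tendsto (fun N => a0 N * (κ * (e1 N + c * e0 N + M * e2 N))) atTop
      (𝓝 (P * (κ * (G + c * P + M * 0)))) :=
    h0.mul (((g1.add (g0.const_mul c)).add (g2.const_mul M)).const_mul κ)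
  rw [mul_zero, add_zero] at hr
  exact le_of_tendsto_of_tendsto hl hr hev

/-- the inequality on one grid, after division by `N ^ n` -/
theorem one_grid {A0 A1 A2 E1 E0 E2 T b κ c M W : ℝ} (hW : 0 < W) (hA : 0 ≤ A0) (hκ : 0 ≤ κ)
    (hb : A2 - 2 * b * A1 + b ^ 2 * A0 ≤ κ * T) (hT : T ≤ E1 + c * E0 + M * E2) :
    A0 / W * (A2 / W) - (A1 / W) ^ 2 ≤
      A0 / W * (κ * (E1 / W + c * (E0 / W) + M * (E2 / W))) := by
  have h4 : A0 * A2 - A1 ^ 2 ≤ A0 * (A2 - 2 * b * A1 + b ^ 2 * A0) := by
    nlinarith [sq_nonneg (A1 - b * A0)]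
  have h5 := h4.trans (mul_le_mul_of_nonneg_left
    (hb.trans (mul_le_mul_of_nonneg_left hT hκ)) hA)
  have h6 : A0 / W * (A2 / W) - (A1 / W) ^ 2 = (A0 * A2 - A1 ^ 2) / W ^ 2 := by
    field_simp
  have h7 : A0 / W * (κ * (E1 / W + c * (E0 / W) + M * (E2 / W))) =
      (A0 * (κ * (E1 + c * E0 + M * E2))) / W ^ 2 := by
    field_simp
  rw [h6, h7]
  exact div_le_div_of_nonneg_right h5 (by positivity)

open Classical in
theorem expand (R : Fin n → Fin n → Prop) (ρ f : (Fin n → ℝ) → ℝ) (N : ℕ) (b : ℝ) :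
    ∑ x ∈ box n N, (if ∀ i j, R i j → x i < x j then
        rw ρ N x * (f (nd N x) - b) ^ 2 else 0) =
      (∑ x ∈ box n N, if ∀ i j, R i j → x i < x j then rw ρ N x * f (nd N x) ^ 2 else 0) -
      2 * b * (∑ x ∈ box n N, if ∀ i j, R i j → x i < x j then rw ρ N x * f (nd N x) else 0) +
      b ^ 2 * (∑ x ∈ box n N, if ∀ i j, R i j → x i < x j then rw ρ N x * 1 else 0) := by
  rw [Finset.mul_sum, Finset.mul_sum, ← Finset.sum_sub_distrib, ← Finset.sum_add_distrib]
  refine Finset.sum_congr rfl fun x _ => ?_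
  split_ifs
  · ring
  · ring

open Classical in
theorem main_ineq (R : Fin n → Fin n → Prop) (hR : ∀ a, ¬ R a a) {ρ : (Fin n → ℝ) → ℝ}
    (hρ : Continuous ρ) (hpos : ∀ x, 0 < ρ x) {K : ℝ} (hK : 0 < K)
    (hGR : ∀ K', K < K' → ∀ᶠ N : ℕ in atTop, GR n N R (rw ρ N) (sw ρ N) K')
    {f : (Fin n → ℝ) → ℝ} (hf : ContDiff ℝ 1 f) {ε : ℝ} (hε : 0 < ε) :
    (∫ x in Icc 0 1 ∩ ordc R, ρ x * 1) * (∫ x in Icc 0 1 ∩ ordc R, ρ x * f x ^ 2) -
      (∫ x in Icc 0 1 ∩ ordc R, ρ x * f x) ^ 2 ≤
    (∫ x in Icc 0 1 ∩ ordc R, ρ x * 1) * ((K + ε) *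
      ((∫ x in Icc 0 1 ∩ ordc R, ρ x * gr f x) + n * ε * ∫ x in Icc 0 1 ∩ ordc R, ρ x * 1)) := by
  have hD : (Icc 0 1 ∩ ordc R : Set (Fin n → ℝ)) ⊆ Icc 0 1 := Set.inter_subset_left
  have hcl : IsClosed (Icc 0 1 ∩ ordc R : Set (Fin n → ℝ)) := isClosed_Icc.inter (ordc_closed R)
  have hcv : Convex ℝ (Icc 0 1 ∩ ordc R : Set (Fin n → ℝ)) :=
    (convex_Icc 0 1).inter (ordc_convex R)
  have l0 := left_lim R hR ρ hρ (fun _ => (1 : ℝ)) continuous_const
  have l1 := left_lim R hR ρ hρ f hf.continuous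
  have l2 := left_lim R hR ρ hρ (fun x => f x ^ 2) (hf.continuous.pow 2)
  have r1 := riemann _ hD hcl.measurableSet (hcv.addHaar_frontier volume)
    (fun x => ρ x * gr f x) (hρ.mul (gr_cont hf))
  have r0 := riemann _ hD hcl.measurableSet (hcv.addHaar_frontier volume)
    (fun x => ρ x * 1) (hρ.mul continuous_const)
  obtain ⟨M, hM⟩ := (isCompact_Icc (a := (0 : Fin n → ℝ)) (b := 1)).exists_bound_of_continuousOn
    (hρ.mul ((gr_cont hf).add (continuous_const (y := (n : ℝ) * ε)))).continuousOn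
  have hM' : ∀ x ∈ Icc (0 : Fin n → ℝ) 1, ρ x * (gr f x + n * ε) ≤ M := fun x hx =>
    (le_abs_self _).trans (hM x hx)
  refine seq_lim (M := (n.factorial : ℝ) * M) l0 l1 l2 r1 r0 (exc_few (n := n)) ?_
  filter_upwards [hGR (K + ε) (by linarith), diff_close hf hε, eventually_gt_atTop 0]
    with N h1 h2 hN
  have hN' : (0 : ℝ) < (N : ℝ) ^ n := by positivity
  obtain ⟨b, hb⟩ := h1 (fun x => f (nd N x))
  have h3 := right_le R hpos hε hN hM' h2
  have hb' := (expand R ρ f N b).symm.trans_le hb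
  refine one_grid hN' ?_ (by linarith) hb' ?_
  · apply Finset.sum_nonneg
    intro x _
    split_ifs
    · rw [mul_one]
      unfold rw
      split_ifs
      · exact (hpos _).le
      · exact le_rfl
    · exact le_rfl
  · simp only [mul_one]
    convert h3

theorem t_X10 : S_X10 := by
  intro n R ρ K hR hρ hpos hK hGR f hf
  have main : ∀ ε : ℝ, 0 < ε → _ := fun ε hε => main_ineq R hR hρ hpos hK hGR hf hε
  simp only [mul_one] at main
  set P : ℝ := ∫ x in Icc 0 1 ∩ ordc R, ρ x with hP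
  set L : ℝ := ∫ x in Icc 0 1 ∩ ordc R, ρ x * f x with hL
  set Q : ℝ := ∫ x in Icc 0 1 ∩ ordc R, ρ x * f x ^ 2 with hQ
  set G : ℝ := ∫ x in Icc 0 1 ∩ ordc R, ρ x * gr f x with hG
  have hlim : Tendsto (fun ε : ℝ => P * ((K + ε) * (G + n * ε * P))) (𝓝[>] 0)
      (𝓝 (P * ((K + 0) * (G + n * 0 * P)))) := by
    refine Tendsto.mono_left ?_ nhdsWithin_le_nhds
    have : Continuous fun ε : ℝ => P * ((K + ε) * (G + n * ε * P)) := by fun_prop
    exact this.tendsto 0
  have hfin := ge_of_tendsto hlim (by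
    filter_upwards [self_mem_nhdsWithin] with ε hε
    exact main ε hε)
  simpa using hfin

end Pool.Agent.J4H28.XC
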